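import Mathlib

set_option autoImplicit false

/-!
# `p`-Banach spaces and Lipschitz free `p`-spaces
-/

namespace Q97.FreeP

open Filter Topology

/-- `q` is a `p`-norm on the real vector space `X`. -/
structure IsPNorm (p : ℝ) {X : Type} [AddCommGroup X] [Module ℝ X] (q : X → ℝ) : Prop where
  nonneg : ∀ x, 0 ≤ q x
  eq_zero : ∀ x, q x = 0 → x = 0
  smul : ∀ (t : ℝ) (x : X), q (t • x) = |t| * q x
  add_le : ∀ x y, q (x + y) ^ p ≤ q x ^ p + q y ^ p

/-- `X` with the `p`-norm `q` is a `p`-Banach space: it is complete for the metric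
`q (x - y) ^ p`. -/
structure IsPBanach (p : ℝ) {X : Type} [AddCommGroup X] [Module ℝ X] (q : X → ℝ) : Prop where
  pnorm : IsPNorm p q
  complete : ∀ u : ℕ → X, (∀ ε > 0, ∃ n, ∀ k ≥ n, ∀ l ≥ n, q (u k - u l) ^ p < ε) →
    ∃ x, Tendsto (fun k => q (u k - x) ^ p) atTop (𝓝 0)

/-- Let `X` be a `p`-Banach space with `p`-norm `q`, with the `p`-metric `q (x - y)` and the base
point `0`.  The `p`-Banach space `F` with the `p`-norm `Q` and the map `δ : X → F` is the
Lipschitz free `p`-space of `X`: every Lipschitz map `f` (with constant `L`) with `f 0 = 0` from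
`X` to a `p`-Banach space factors through `δ` by a linear map of norm at most `L`, and there is
only one bounded linear map with this factorisation. -/
structure IsFreePSpace (p : ℝ) {X F : Type} [AddCommGroup X] [Module ℝ X] [AddCommGroup F]
    [Module ℝ F] (q : X → ℝ) (Q : F → ℝ) (δ : X → F) : Prop where
  banach : IsPBanach p Q
  zero : δ 0 = 0
  lip : ∀ x y, Q (δ x - δ y) ≤ q (x - y)
  linearisation : ∀ (Y : Type) [AddCommGroup Y] [Module ℝ Y] (r : Y → ℝ), IsPBanach p r →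
    ∀ f : X → Y, f 0 = 0 → ∀ L : ℝ, 0 ≤ L → (∀ x y, r (f x - f y) ≤ L * q (x - y)) →
      ∃ T : F →ₗ[ℝ] Y, (∀ x, T (δ x) = f x) ∧ ∀ v, r (T v) ≤ L * Q v
  unique : ∀ (Y : Type) [AddCommGroup Y] [Module ℝ Y] (r : Y → ℝ), IsPBanach p r →
    ∀ T₁ T₂ : F →ₗ[ℝ] Y, (∃ C, ∀ v, r (T₁ v) ≤ C * Q v) → (∃ C, ∀ v, r (T₂ v) ≤ C * Q v) →
      (∀ x, T₁ (δ x) = T₂ (δ x)) → T₁ = T₂

end Q97.FreeP
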