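import Mathlib

set_option autoImplicit false

/-!
# The algebraic skeleton: a vector space which is free over its own nonzero elements
-/

namespace Q97.FreeP

open Cardinal

/-- The ambient space. -/
abbrev M : Type := ℝ × ℝ →₀ ℝ

theorem exists_embedding : Nonempty (M ↪ ℝ) := by
  rw [← Cardinal.le_def]
  have h : #M = #(ℝ × ℝ) := by
    rw [Cardinal.mk_finsupp_of_infinite]
    have : #(ℝ × ℝ) = #ℝ := by
      rw [Cardinal.mk_prod, Cardinal.lift_id, Cardinal.mul_eq_self]
      exact Cardinal.infinite_iff.mp inferInstance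
    rw [this, max_self]
  rw [h, Cardinal.mk_prod, Cardinal.lift_id, Cardinal.mul_eq_self]
  exact Cardinal.infinite_iff.mp inferInstance

/-- The distinguished vector. -/
noncomputable def e : M := Finsupp.single (0, 1) 1

/-- An injection of the ambient space into the reals. -/
noncomputable def σ0 : M ↪ ℝ := Classical.choice exists_embedding

/-- The injection normalised at `e`. -/
noncomputable def σ (x : M) : ℝ := Equiv.swap (σ0 e) 0 (σ0 x)

theorem σ_inj : Function.Injective σ := (Equiv.injective _).comp σ0.injective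

theorem σ_e : σ e = 0 := by
  unfold σ
  exact Equiv.swap_apply_left _ _

/-- The weight functional. -/
noncomputable def β : M →ₗ[ℝ] ℝ := Finsupp.linearCombination ℝ (fun r : ℝ × ℝ => r.2)

theorem β_single (r : ℝ × ℝ) (a : ℝ) : β (Finsupp.single r a) = a * r.2 := by
  unfold β
  rw [Finsupp.linearCombination_single, smul_eq_mul]

theorem β_e : β e = 1 := by
  unfold e
  rw [β_single, one_mul]

open Classical in
/-- The map `δ` on the ambient space. -/
noncomputable def del (x : M) : M := if x = 0 then 0 else Finsupp.single (σ x, β x) 1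

theorem del_zero : del 0 = 0 := if_pos rfl

theorem del_of_ne {x : M} (h : x ≠ 0) : del x = Finsupp.single (σ x, β x) 1 := if_neg h

theorem e_ne_zero : e ≠ 0 := by
  intro h
  have := β_e
  rw [h, map_zero] at this
  exact zero_ne_one this

theorem del_e : del e = e := by
  rw [del_of_ne e_ne_zero, σ_e, β_e]
  rfl

theorem β_del (x : M) : β (del x) = β x := by
  by_cases h : x = 0
  · rw [h, del_zero]
  · rw [del_of_ne h, β_single, one_mul]

/-- The smallest subspace that contains `e` and is closed under `δ`. -/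
noncomputable def V : Submodule ℝ M := sInf {W | e ∈ W ∧ ∀ x ∈ W, del x ∈ W}

theorem e_mem : e ∈ V := by
  unfold V
  rw [Submodule.mem_sInf]
  exact fun W hW => hW.1

theorem del_mem {x : M} (hx : x ∈ V) : del x ∈ V := by
  unfold V at hx ⊢
  rw [Submodule.mem_sInf] at hx ⊢
  exact fun W hW => hW.2 x (hx W hW)

theorem V_le {W : Submodule ℝ M} (h1 : e ∈ W) (h2 : ∀ x ∈ W, del x ∈ W) : V ≤ W :=
  sInf_le ⟨h1, h2⟩

theorem V_le_span : V ≤ Submodule.span ℝ (del '' V) := by
  have h0 : Submodule.span ℝ (del '' V) ≤ V := by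
    rw [Submodule.span_le]
    rintro _ ⟨x, hx, rfl⟩
    exact del_mem hx
  apply V_le
  · apply Submodule.subset_span
    exact ⟨e, e_mem, del_e⟩
  · intro x hx
    apply Submodule.subset_span
    exact ⟨x, h0 hx, rfl⟩

/-- The subspace as a type. -/
def VT : Type := V

noncomputable instance : AddCommGroup VT := inferInstanceAs (AddCommGroup V)

noncomputable instance : Module ℝ VT := inferInstanceAs (Module ℝ V)

/-- The inclusion. -/
noncomputable def inc : VT →ₗ[ℝ] M := V.subtype

theorem inc_inj : Function.Injective inc := Subtype.val_injective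

theorem inc_mem (x : VT) : inc x ∈ V := x.2

/-- Members of the subspace as elements of the type. -/
noncomputable def mkV (m : M) (h : m ∈ V) : VT := ⟨m, h⟩

theorem inc_mkV (m : M) (h : m ∈ V) : inc (mkV m h) = m := rfl

/-- The map `δ` on `V`. -/
noncomputable def dl (x : VT) : VT := mkV (del (inc x)) (del_mem (inc_mem x))

theorem inc_dl (x : VT) : inc (dl x) = del (inc x) := rfl

/-- The distinguished vector of `V`. -/
noncomputable def ee : VT := mkV e e_mem

theorem inc_ee : inc ee = e := rfl

theorem dl_zero : dl 0 = 0 := by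
  apply inc_inj
  rw [inc_dl, map_zero, del_zero]

theorem dl_ee : dl ee = ee := by
  apply inc_inj
  rw [inc_dl, inc_ee, del_e]

/-- The weight functional on `V`. -/
noncomputable def βV : VT →ₗ[ℝ] ℝ := β.comp inc

theorem βV_dl (x : VT) : βV (dl x) = βV x := β_del (inc x)

theorem βV_ee : βV ee = 1 := β_e

theorem span_dl : Submodule.span ℝ (Set.range dl) = ⊤ := by
  have h1 : (Submodule.span ℝ (Set.range dl)).map inc = V := by
    rw [Submodule.map_span]
    have h2 : inc '' Set.range dl = del '' V := by
      ext m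
      constructor
      · rintro ⟨_, ⟨x, rfl⟩, rfl⟩
        exact ⟨inc x, inc_mem x, rfl⟩
      · rintro ⟨x, hx, rfl⟩
        exact ⟨dl (mkV x hx), ⟨mkV x hx, rfl⟩, rfl⟩
    rw [h2]
    apply le_antisymm
    · rw [Submodule.span_le]
      rintro _ ⟨x, hx, rfl⟩
      exact del_mem hx
    · exact V_le_span
  rw [eq_top_iff]
  intro v _
  have h3 : inc v ∈ (Submodule.span ℝ (Set.range dl)).map inc := by
    rw [h1]; exact inc_mem v
  obtain ⟨w, hw, hwv⟩ := h3
  rwa [← inc_inj hwv]

/-- `V` is free over its nonzero elements. -/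
theorem exists_lift {Y : Type*} [AddCommGroup Y] [Module ℝ Y] (f : VT → Y) (h0 : f 0 = 0) :
    ∃ T : VT →ₗ[ℝ] Y, ∀ x, T (dl x) = f x := by
  classical
  let g : ℝ × ℝ → Y := fun r =>
    if h : ∃ x : VT, x ≠ 0 ∧ (σ (inc x), β (inc x)) = r then f h.choose else 0
  refine ⟨(Finsupp.linearCombination ℝ g).comp inc, fun x => ?_⟩
  change Finsupp.linearCombination ℝ g (del (inc x)) = f x
  by_cases hx : x = 0
  · rw [hx, h0, map_zero, del_zero, map_zero]
  · have hx' : inc x ≠ 0 := fun h => hx (inc_inj (h.trans (map_zero inc).symm))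
    rw [del_of_ne hx', Finsupp.linearCombination_single, one_smul]
    have hex : ∃ y : VT, y ≠ 0 ∧ (σ (inc y), β (inc y)) = (σ (inc x), β (inc x)) := ⟨x, hx, rfl⟩
    have h1 : g (σ (inc x), β (inc x)) = f hex.choose := dif_pos hex
    rw [h1]
    congr 1
    have h2 := hex.choose_spec.2
    exact inc_inj (σ_inj (Prod.ext_iff.mp h2).1)

end Q97.FreeP
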