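import Pool.Agent.Q97.FreeP.Norm

set_option autoImplicit false
set_option linter.unusedSectionVars false

/-!
# The universal property
-/

namespace Q97.FreeP

open Filter Topology

/-- `p`-homogeneous seminorms on a vector space. -/
structure PSemi (p : ℝ) {Y : Type*} [AddCommGroup Y] [Module ℝ Y] (r : Y → ℝ) : Prop where
  nonneg : ∀ y, 0 ≤ r y
  add_le : ∀ y z, r (y + z) ≤ r y + r z
  smul : ∀ (t : ℝ) y, r (t • y) = |t| ^ p * r y

/-- The basic estimate for linearisations. -/
theorem lift_bound {p : ℝ} (hp : 0 < p) {Y : Type*} [AddCommGroup Y] [Module ℝ Y] {r : Y → ℝ}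
    (hr : PSemi p r) {f : VT → Y} {L : ℝ} (hL : 0 < L) (h0 : f 0 = 0)
    (hf : ∀ x y, r (f x - f y) ≤ L * Nm p (x - y)) (T : VT →ₗ[ℝ] Y) (hT : ∀ x, T (dl x) = f x)
    (v : VT) : r (T v) ≤ L * Nm p v := by
  have hN := adm_Nm hp
  have h1 : Adm p (fun v => max (Nm p v) (r (T v) / L)) := by
    refine ⟨fun v => le_max_of_le_left (hN.nonneg v), fun v w => ?_, fun t v => ?_, fun x y => ?_,
      ?_⟩
    · apply max_le
      · exact (hN.add_le v w).trans (add_le_add (le_max_left _ _) (le_max_left _ _))
      · rw [map_add]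
        refine (div_le_div_of_nonneg_right (hr.add_le _ _) hL.le).trans ?_
        rw [add_div]
        exact add_le_add (le_max_right _ _) (le_max_right _ _)
    · have h3 : 0 ≤ |t| ^ p := by positivity
      rw [hN.smul, map_smul, hr.smul, mul_div_assoc, mul_max_of_nonneg _ _ h3]
    · apply max_le
      · exact (hN.del_le x y).trans (le_max_left _ _)
      · refine le_trans ?_ (le_max_left _ _)
        rw [map_sub, hT, hT, div_le_iff₀ hL, mul_comm]
        exact hf x y
    · apply max_le
      · exact hN.e_le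
      · rw [← dl_ee, hT, div_le_iff₀ hL, one_mul]
        have h4 := hf ee 0
        rw [h0, sub_zero, sub_zero] at h4
        exact h4.trans (by nlinarith [hN.e_le])
  have h2 := (le_max_right _ _).trans (le_Nm hp h1 v)
  rwa [div_le_iff₀ hL, mul_comm] at h2

variable {p : ℝ} [hp : Fact (0 < p)]

/-- The identity between the two copies of `V`. -/
def toE (p : ℝ) : VT →ₗ[ℝ] E p where
  toFun v := v
  map_add' _ _ := rfl
  map_smul' _ _ := rfl

/-- The identity between the two copies of `V`. -/
def ofE (p : ℝ) : E p →ₗ[ℝ] VT where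
  toFun v := v
  map_add' _ _ := rfl
  map_smul' _ _ := rfl

theorem toE_ofE (v : E p) : toE p (ofE p v) = v := rfl

theorem ofE_toE (v : VT) : ofE p (toE p v) = v := rfl

theorem norm_toE (v : VT) : ‖toE p v‖ = Nm p v := rfl

theorem norm_eq_Nm (v : E p) : ‖v‖ = Nm p (ofE p v) := rfl

theorem dE_toE (v : VT) : dE (toE p v) = toE p (dl v) := rfl

/-- The canonical map to the completion. -/
noncomputable def cX (p : ℝ) [Fact (0 < p)] : VT →ₗ[ℝ] X p where
  toFun v := ((toE p v : E p) : X p)
  map_add' v w := by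
    rw [map_add]
    exact UniformSpace.Completion.coe_add _ _
  map_smul' t v := by
    rw [map_smul]
    exact UniformSpace.Completion.coe_smul _ _

theorem cX_apply (v : VT) : cX p v = ((toE p v : E p) : X p) := rfl

theorem norm_cX (v : VT) : ‖cX p v‖ = Nm p v := by
  rw [cX_apply, UniformSpace.Completion.norm_coe, norm_toE]

theorem dX_cX (v : VT) : dX (cX p v) = cX p (dl v) := by
  rw [cX_apply, dX_coe, dE_toE, cX_apply]

theorem coe_eq_cX (v : E p) : (v : X p) = cX p (ofE p v) := rfl

/-- Extension of bounded linear maps from the seminormed space to its completion. -/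
theorem exists_ext {Y : Type*} [NormedAddCommGroup Y] [Module ℝ Y] [CompleteSpace Y]
    (hY : ∀ (t : ℝ) (y : Y), ‖t • y‖ = |t| ^ p * ‖y‖) (T : VT →ₗ[ℝ] Y) {L : ℝ}
    (hT : ∀ v, ‖T v‖ ≤ L * Nm p v) :
    ∃ T' : X p →ₗ[ℝ] Y, (∀ v, T' (cX p v) = T v) ∧ ∀ x, ‖T' x‖ ≤ L * ‖x‖ := by
  have hcont : ∀ t : ℝ, Continuous fun y : Y => t • y := by
    intro t
    have h : LipschitzWith (Real.toNNReal (|t| ^ p)) (fun v : Y => t • v) := by
      apply LipschitzWith.of_dist_le_mul
      intro x y
      rw [dist_eq_norm, dist_eq_norm, ← smul_sub, hY, Real.coe_toNNReal _ (by positivity)]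
    exact h.continuous
  let TE : E p →ₗ[ℝ] Y := T.comp (ofE p)
  have hTE : ∀ v : E p, ‖TE v‖ ≤ L * ‖v‖ := fun v => hT (ofE p v)
  have huc : UniformContinuous TE := by
    have h : LipschitzWith (Real.toNNReal L) TE := by
      apply LipschitzWith.of_dist_le_mul
      intro x y
      rw [dist_eq_norm, dist_eq_norm, ← map_sub]
      exact (hTE _).trans (mul_le_mul_of_nonneg_right (Real.le_coe_toNNReal L) (norm_nonneg _))
    exact h.uniformContinuous
  let g : X p → Y := UniformSpace.Completion.extension TE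
  have hg : Continuous g := UniformSpace.Completion.continuous_extension
  have hgT : ∀ v : E p, g (v : X p) = TE v := fun v => UniformSpace.Completion.extension_coe huc v
  refine ⟨⟨⟨g, ?_⟩, ?_⟩, fun v => hgT (toE p v), ?_⟩
  · intro x y
    induction x, y using UniformSpace.Completion.induction_on₂ with
    | hp =>
      exact isClosed_eq (hg.comp (continuous_fst.add continuous_snd))
        ((hg.comp continuous_fst).add (hg.comp continuous_snd))
    | ih v w =>
      rw [← UniformSpace.Completion.coe_add, hgT, hgT, hgT, map_add]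
  · intro t x
    simp only [RingHom.id_apply]
    induction x using UniformSpace.Completion.induction_on with
    | hp =>
      exact isClosed_eq (hg.comp (continuous_const_smul t)) ((hcont t).comp hg)
    | ih v =>
      change g (t • (v : X p)) = t • g v
      rw [← UniformSpace.Completion.coe_smul, hgT, hgT, map_smul]
  · intro x
    change ‖g x‖ ≤ L * ‖x‖
    induction x using UniformSpace.Completion.induction_on with
    | hp => exact isClosed_le hg.norm (continuous_const.mul continuous_norm)
    | ih v =>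
      rw [hgT, UniformSpace.Completion.norm_coe]
      exact hTE v

/-- Existence of linearisations. -/
theorem exists_lin {Y : Type*} [NormedAddCommGroup Y] [Module ℝ Y] [CompleteSpace Y]
    (hY : ∀ (t : ℝ) (y : Y), ‖t • y‖ = |t| ^ p * ‖y‖) (f : X p → Y) (h0 : f 0 = 0) {L : ℝ}
    (hL : 0 ≤ L) (hf : ∀ x y, ‖f x - f y‖ ≤ L * ‖x - y‖) :
    ∃ T : X p →ₗ[ℝ] Y, (∀ x, T (dX x) = f x) ∧ ∀ v, ‖T v‖ ≤ L * ‖v‖ := by
  rcases hL.eq_or_lt with rfl | hL
  · refine ⟨0, fun x => ?_, fun v => by simp⟩
    have h1 := hf x 0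
    rw [h0, sub_zero, zero_mul] at h1
    rw [LinearMap.zero_apply]
    exact (norm_le_zero_iff.mp h1).symm
  have h00 : (fun v : VT => f (cX p v)) 0 = 0 := by
    simp only [map_zero, h0]
  obtain ⟨T0, hT0⟩ := exists_lift (fun v : VT => f (cX p v)) h00
  have hb : ∀ v : VT, ‖T0 v‖ ≤ L * Nm p v := by
    intro v
    refine lift_bound hp.out (r := fun y : Y => ‖y‖)
      ⟨fun y => norm_nonneg y, fun y z => norm_add_le y z, hY⟩ hL h00 ?_ T0 hT0 v
    intro x y
    have h1 := hf (cX p x) (cX p y)
    rw [← map_sub, norm_cX] at h1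
    exact h1
  obtain ⟨T, hT1, hT2⟩ := exists_ext hY T0 hb
  refine ⟨T, ?_, hT2⟩
  have hTc : Continuous T := by
    have h : LipschitzWith (Real.toNNReal L) T := by
      apply LipschitzWith.of_dist_le_mul
      intro x y
      rw [dist_eq_norm, dist_eq_norm, ← map_sub]
      exact (hT2 _).trans (mul_le_mul_of_nonneg_right (Real.le_coe_toNNReal L) (norm_nonneg _))
    exact h.continuous
  have hfc : Continuous f := by
    have h : LipschitzWith (Real.toNNReal L) f := by
      apply LipschitzWith.of_dist_le_mul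
      intro x y
      rw [dist_eq_norm, dist_eq_norm]
      exact (hf _ _).trans (mul_le_mul_of_nonneg_right (Real.le_coe_toNNReal L) (norm_nonneg _))
    exact h.continuous
  intro x
  induction x using UniformSpace.Completion.induction_on with
  | hp => exact isClosed_eq (hTc.comp lipschitz_dX.continuous) hfc
  | ih v =>
    rw [coe_eq_cX, dX_cX, hT1]
    exact hT0 (ofE p v)

/-- Uniqueness of linearisations. -/
theorem lin_unique {Y : Type*} [NormedAddCommGroup Y] [Module ℝ Y] {T1 T2 : X p →ₗ[ℝ] Y}
    (h1 : Continuous T1) (h2 : Continuous T2) (h : ∀ x, T1 (dX x) = T2 (dX x)) : T1 = T2 := by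
  apply LinearMap.ext
  intro x
  induction x using UniformSpace.Completion.induction_on with
  | hp => exact isClosed_eq h1 h2
  | ih v =>
    have h3 : T1.comp (cX p) = T2.comp (cX p) := by
      apply LinearMap.ext_on_range span_dl
      intro x
      rw [LinearMap.comp_apply, LinearMap.comp_apply, ← dX_cX]
      exact h _
    rw [coe_eq_cX]
    exact LinearMap.congr_fun h3 (ofE p v)

/-- The hat function at `j`. -/
noncomputable def hat (j : ℝ) (x : ℝ) : ℝ := max 0 (1 - |x - j|)

theorem hat_lip (j x y : ℝ) : |hat j x - hat j y| ≤ |x - y| := by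
  unfold hat
  have h0 := abs_max_sub_max_le_abs (1 - |x - j|) (1 - |y - j|) (0 : ℝ)
  rw [max_comm (1 - |x - j|), max_comm (1 - |y - j|)] at h0
  refine h0.trans ?_
  have h1 : 1 - |x - j| - (1 - |y - j|) = |y - j| - |x - j| := by ring
  rw [h1]
  refine (abs_abs_sub_abs_le_abs_sub _ _).trans ?_
  have h2 : y - j - (x - j) = -(x - y) := by ring
  rw [h2, abs_neg]

theorem hat_self (j : ℝ) : hat j j = 1 := by
  unfold hat
  rw [sub_self, abs_zero, sub_zero, max_eq_right zero_le_one]

theorem hat_of_one_le {j x : ℝ} (h : 1 ≤ |x - j|) : hat j x = 0 := by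
  unfold hat
  exact max_eq_left (by linarith)

/-- The points `δ(k e)` are linearly independent. -/
theorem linearIndependent_dX (hp1 : p ≤ 1) :
    LinearIndependent ℝ (fun k : ℕ => dX (cX p (((k : ℝ) + 1) • ee))) := by
  rw [linearIndependent_iff']
  intro s c hc j hj
  -- the sum as an element of `V`
  let w : VT := ∑ k ∈ s, c k • dl (((k : ℝ) + 1) • ee)
  have hw : cX p w = 0 := by
    rw [← hc, map_sum]
    apply Finset.sum_congr rfl
    intro k _
    rw [map_smul, dX_cX]
  have hw0 : Nm p w = 0 := by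
    rw [← norm_cX, hw, norm_zero]
  -- the functional belonging to the hat function at `j + 1`
  have hh0 : (fun v : VT => hat ((j : ℝ) + 1) (βV v)) 0 = 0 := by
    simp only [map_zero]
    apply hat_of_one_le
    rw [zero_sub, abs_neg, abs_of_nonneg (by positivity)]
    linarith [(Nat.cast_nonneg j : (0 : ℝ) ≤ j)]
  obtain ⟨T, hT⟩ := exists_lift (fun v : VT => hat ((j : ℝ) + 1) (βV v)) hh0
  have hsemi : PSemi p (fun y : ℝ => |y| ^ p) := by
    refine ⟨fun y => by positivity, fun y z => ?_, fun t y => ?_⟩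
    · refine (Real.rpow_le_rpow (abs_nonneg _) (abs_add_le _ _) hp.out.le).trans ?_
      exact Real.rpow_add_le_add_rpow (abs_nonneg _) (abs_nonneg _) hp.out.le hp1
    · rw [smul_eq_mul, abs_mul, Real.mul_rpow (abs_nonneg _) (abs_nonneg _)]
  have hb := lift_bound hp.out hsemi one_pos hh0 (fun x y => by
    rw [one_mul]
    refine le_trans ?_ (le_Nm hp.out (adm_β hp.out hp1) (x - y))
    rw [map_sub]
    exact Real.rpow_le_rpow (abs_nonneg _) (hat_lip _ _ _) hp.out.le) T hT w
  rw [hw0, mul_zero] at hb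
  have hTw : T w = c j := by
    rw [map_sum, Finset.sum_eq_single j]
    · rw [map_smul, hT, map_smul, βV_ee, smul_eq_mul, smul_eq_mul, mul_one, hat_self, mul_one]
    · intro k _ hkj
      rw [map_smul, hT, map_smul, βV_ee, smul_eq_mul, smul_eq_mul, mul_one, hat_of_one_le, mul_zero]
      have h5 : (k : ℝ) + 1 - ((j : ℝ) + 1) = ((((k : ℤ) - (j : ℤ) : ℤ)) : ℝ) := by
        push_cast; ring
      rw [h5, ← Int.cast_abs]
      have h6 : (k : ℤ) - (j : ℤ) ≠ 0 := by omega
      exact_mod_cast Int.one_le_abs h6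
    · intro h; exact absurd hj h
  rw [hTw] at hb
  have h7 : |c j| ^ p = 0 := le_antisymm hb (by positivity)
  rw [Real.rpow_eq_zero (abs_nonneg _) hp.out.ne'] at h7
  exact abs_eq_zero.mp h7

theorem not_finiteDimensional (hp1 : p ≤ 1) : ¬ FiniteDimensional ℝ (X p) := by
  intro h
  have h1 := (linearIndependent_dX (p := p) hp1).finite_of_isNoetherian
  exact not_finite ℕ

end Q97.FreeP
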