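import Pool.Agent.Q97.FreeP.Defs
import Pool.Agent.Q97.FreeP.Univ

set_option autoImplicit false

/-!
# The space `X` is its own Lipschitz free `p`-space
-/

namespace Q97.FreeP

open Filter Topology

section Translate

variable {p : ℝ} {Y : Type} [AddCommGroup Y] [Module ℝ Y] {r : Y → ℝ}

/-- The `p`-th power of a `p`-norm as a group norm. -/
noncomputable def gn (hp : 0 < p) (hr : IsPNorm p r) : AddGroupNorm Y where
  toFun y := r y ^ p
  map_zero' := by
    have h := hr.smul 0 0
    rw [zero_smul, abs_zero, zero_mul] at h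
    rw [h, Real.zero_rpow hp.ne']
  add_le' := hr.add_le
  neg' y := by
    have h := hr.smul (-1) y
    rw [neg_one_smul, abs_neg, abs_one, one_mul] at h
    rw [h]
  eq_zero_of_map_eq_zero' y h := by
    have h1 : r y ^ p = 0 := h
    rw [Real.rpow_eq_zero (hr.nonneg y) hp.ne'] at h1
    exact hr.eq_zero y h1

/-- A `p`-Banach space as a complete normed group with the `p`-th power of the norm. -/
theorem exists_normed (hp : 0 < p) (hr : IsPBanach p r) :
    ∃ (i : NormedAddCommGroup Y), i.toAddCommGroup = ‹AddCommGroup Y› ∧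
      (∀ y, i.norm y = r y ^ p) := by
  refine ⟨(gn hp hr.pnorm).toNormedAddCommGroup, rfl, fun y => rfl⟩

end Translate

variable {p : ℝ} [hp : Fact (0 < p)]

/-- The `p`-norm of the space `X`. -/
noncomputable def qX (x : X p) : ℝ := ‖x‖ ^ (1 / p)

theorem qX_rpow (x : X p) : qX x ^ p = ‖x‖ := by
  unfold qX
  rw [← Real.rpow_mul (norm_nonneg _), one_div_mul_cancel hp.out.ne', Real.rpow_one]

theorem qX_nonneg (x : X p) : 0 ≤ qX x := by
  unfold qX
  positivity

theorem isPBanach_X : IsPBanach p (qX (p := p)) where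
  pnorm :=
    { nonneg := qX_nonneg
      eq_zero := fun x h => by
        have h1 : ‖x‖ = 0 := by rw [← qX_rpow, h, Real.zero_rpow hp.out.ne']
        exact norm_eq_zero.mp h1
      smul := fun t x => by
        unfold qX
        rw [norm_smul_X, Real.mul_rpow (by positivity) (norm_nonneg _),
          ← Real.rpow_mul (abs_nonneg _), mul_one_div_cancel hp.out.ne', Real.rpow_one]
      add_le := fun x y => by
        rw [qX_rpow, qX_rpow, qX_rpow]
        exact norm_add_le x y }
  complete u hu := by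
    have h1 : CauchySeq u := by
      rw [Metric.cauchySeq_iff]
      intro ε hε
      obtain ⟨n, hn⟩ := hu ε hε
      refine ⟨n, fun k hk l hl => ?_⟩
      rw [dist_eq_norm, ← qX_rpow]
      exact hn k hk l hl
    obtain ⟨x, hx⟩ := cauchySeq_tendsto_of_complete h1
    refine ⟨x, ?_⟩
    simp_rw [qX_rpow]
    exact tendsto_iff_norm_sub_tendsto_zero.mp hx

theorem isFree_X : IsFreePSpace p (qX (p := p)) (qX (p := p)) dX where
  banach := isPBanach_X
  zero := dX_zero
  lip x y := by
    unfold qX
    apply Real.rpow_le_rpow (norm_nonneg _) _ (by have := hp.out; positivity)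
    have h := lipschitz_dX.dist_le_mul x y
    rwa [NNReal.coe_one, one_mul, dist_eq_norm, dist_eq_norm] at h
  linearisation := by
    intro Y iY1 iY2 r hr f h0 L hL hf
    let i : NormedAddCommGroup Y := (gn hp.out hr.pnorm).toNormedAddCommGroup
    have hnorm : ∀ y : Y, ‖y‖ = r y ^ p := fun y => rfl
    have hcomp : CompleteSpace Y := by
      apply Metric.complete_of_cauchySeq_tendsto
      intro u hu
      rw [Metric.cauchySeq_iff] at hu
      obtain ⟨x, hx⟩ := hr.complete u (fun ε hε => by
        obtain ⟨n, hn⟩ := hu ε hε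
        refine ⟨n, fun k hk l hl => ?_⟩
        have := hn k hk l hl
        rwa [dist_eq_norm] at this)
      exact ⟨x, tendsto_iff_norm_sub_tendsto_zero.mpr hx⟩
    have hY : ∀ (t : ℝ) (y : Y), ‖t • y‖ = |t| ^ p * ‖y‖ := by
      intro t y
      rw [hnorm, hnorm, hr.pnorm.smul, Real.mul_rpow (abs_nonneg _) (hr.pnorm.nonneg y)]
    obtain ⟨T, hT1, hT2⟩ := exists_lin (p := p) hY f h0 (L := L ^ p) (by positivity) (fun x y => by
      rw [hnorm, ← qX_rpow, ← Real.mul_rpow hL (qX_nonneg _)]
      exact Real.rpow_le_rpow (hr.pnorm.nonneg _) (hf x y) hp.out.le)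
    refine ⟨T, hT1, fun v => ?_⟩
    have h := hT2 v
    rw [hnorm, ← qX_rpow, ← Real.mul_rpow hL (qX_nonneg _)] at h
    exact (Real.rpow_le_rpow_iff (hr.pnorm.nonneg _) (mul_nonneg hL (qX_nonneg _)) hp.out).mp h
  unique := by
    intro Y iY1 iY2 r hr T₁ T₂ h1 h2 h
    let i : NormedAddCommGroup Y := (gn hp.out hr.pnorm).toNormedAddCommGroup
    have hnorm : ∀ y : Y, ‖y‖ = r y ^ p := fun y => rfl
    have hcont : ∀ T : X p →ₗ[ℝ] Y, (∃ C, ∀ v, r (T v) ≤ C * qX v) → Continuous T := by
      rintro T ⟨C, hC⟩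
      have hC' : ∀ v, r (T v) ≤ |C| * qX v := fun v =>
        (hC v).trans (mul_le_mul_of_nonneg_right (le_abs_self C) (qX_nonneg v))
      have hl : LipschitzWith (Real.toNNReal (|C| ^ p)) T := by
        apply LipschitzWith.of_dist_le_mul
        intro x y
        rw [dist_eq_norm, dist_eq_norm, ← map_sub, Real.coe_toNNReal _ (by positivity), hnorm,
          ← qX_rpow, ← Real.mul_rpow (abs_nonneg _) (qX_nonneg _)]
        exact Real.rpow_le_rpow (hr.pnorm.nonneg _) (hC' _) hp.out.le
      exact hl.continuous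
    exact lin_unique (hcont T₁ h1) (hcont T₂ h2) h

end Q97.FreeP

namespace Q97.FreeP

/-- The Lipschitz free `p`-space is unique up to a linear isometry. -/
theorem free_unique {p : ℝ} {X F G : Type} [AddCommGroup X] [Module ℝ X] [AddCommGroup F]
    [Module ℝ F] [AddCommGroup G] [Module ℝ G] {q : X → ℝ} {Q : F → ℝ} {R : G → ℝ} {δ : X → F}
    {η : X → G} (hF : IsFreePSpace p q Q δ) (hG : IsFreePSpace p q R η) :
    ∃ T : F ≃ₗ[ℝ] G, ∀ v, R (T v) = Q v := by
  obtain ⟨T, hT1, hT2⟩ := hF.linearisation G R hG.banach η hG.zero 1 zero_le_one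
    (fun x y => by rw [one_mul]; exact hG.lip x y)
  obtain ⟨S, hS1, hS2⟩ := hG.linearisation F Q hF.banach δ hF.zero 1 zero_le_one
    (fun x y => by rw [one_mul]; exact hF.lip x y)
  simp only [one_mul] at hT2 hS2
  have h1 : S.comp T = LinearMap.id := by
    apply hF.unique F Q hF.banach
    · exact ⟨1, fun v => by rw [one_mul]; exact (hS2 _).trans (hT2 v)⟩
    · exact ⟨1, fun v => by rw [one_mul]; exact le_rfl⟩
    · intro x
      rw [LinearMap.comp_apply, hT1, hS1, LinearMap.id_apply]
  have h2 : T.comp S = LinearMap.id := by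
    apply hG.unique G R hG.banach
    · exact ⟨1, fun v => by rw [one_mul]; exact (hT2 _).trans (hS2 v)⟩
    · exact ⟨1, fun v => by rw [one_mul]; exact le_rfl⟩
    · intro x
      rw [LinearMap.comp_apply, hS1, hT1, LinearMap.id_apply]
  refine ⟨LinearEquiv.ofLinear T S h2 h1, fun v => le_antisymm (hT2 v) ?_⟩
  have h3 := hS2 (T v)
  have h4 : S (T v) = v := LinearMap.congr_fun h1 v
  rwa [h4] at h3

end Q97.FreeP
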