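import Pool.Agent.Q97.FreeP.Alg

set_option autoImplicit false

/-!
# The largest admissible seminorm and the completion
-/

namespace Q97.FreeP

open Filter Topology

/-- Admissible `p`-homogeneous seminorms on `V` (these are `p`-th powers of `p`-seminorms). -/
structure Adm (p : ℝ) (N : VT → ℝ) : Prop where
  nonneg : ∀ v, 0 ≤ N v
  add_le : ∀ v w, N (v + w) ≤ N v + N w
  smul : ∀ (t : ℝ) v, N (t • v) = |t| ^ p * N v
  del_le : ∀ x y, N (dl x - dl y) ≤ N (x - y)
  e_le : N ee ≤ 1

theorem adm_zero (p : ℝ) : Adm p (fun _ => 0) where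
  nonneg _ := le_rfl
  add_le _ _ := by norm_num
  smul _ _ := by norm_num
  del_le _ _ := le_rfl
  e_le := zero_le_one

theorem Adm.zero {p : ℝ} (hp : 0 < p) {N : VT → ℝ} (h : Adm p N) : N 0 = 0 := by
  have h1 := h.smul 0 0
  rw [zero_smul, abs_zero, Real.zero_rpow hp.ne', zero_mul] at h1
  exact h1

theorem Adm.dl_le {p : ℝ} {N : VT → ℝ} (h : Adm p N) (x : VT) : N (dl x) ≤ N x := by
  have h1 := h.del_le x 0
  rwa [dl_zero, sub_zero, sub_zero] at h1

theorem bdd {p : ℝ} (hp : 0 < p) (v : VT) : ∃ B, ∀ N, Adm p N → N v ≤ B := by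
  let U : Submodule ℝ M :=
    { carrier := {m | ∃ h : m ∈ V, ∃ B, ∀ N, Adm p N → N (mkV m h) ≤ B}
      add_mem' := by
        rintro a b ⟨ha, A, hA⟩ ⟨hb, B, hB⟩
        refine ⟨V.add_mem ha hb, A + B, fun N hN => ?_⟩
        exact (hN.add_le (mkV a ha) (mkV b hb)).trans (add_le_add (hA N hN) (hB N hN))
      zero_mem' := ⟨V.zero_mem, 0, fun N hN => (hN.zero hp).le⟩
      smul_mem' := by
        rintro t a ⟨ha, A, hA⟩
        refine ⟨V.smul_mem t ha, |t| ^ p * A, fun N hN => ?_⟩
        have h1 := hN.smul t (mkV a ha)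
        change N (t • (mkV a ha)) ≤ _
        rw [h1]
        exact mul_le_mul_of_nonneg_left (hA N hN) (by positivity) }
  have hU : V ≤ U := by
    apply V_le
    · exact ⟨e_mem, 1, fun N hN => hN.e_le⟩
    · rintro x ⟨hx, B, hB⟩
      exact ⟨del_mem hx, B, fun N hN => (hN.dl_le (mkV x hx)).trans (hB N hN)⟩
  obtain ⟨h, B, hB⟩ := hU (inc_mem v)
  exact ⟨B, hB⟩

/-- The largest admissible seminorm. -/
noncomputable def Nm (p : ℝ) (v : VT) : ℝ := ⨆ N : {N : VT → ℝ // Adm p N}, N.1 v

instance (p : ℝ) : Nonempty {N : VT → ℝ // Adm p N} := ⟨⟨_, adm_zero p⟩⟩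

theorem bddAbove {p : ℝ} (hp : 0 < p) (v : VT) :
    BddAbove (Set.range fun N : {N : VT → ℝ // Adm p N} => N.1 v) := by
  obtain ⟨B, hB⟩ := bdd hp v
  exact ⟨B, by rintro _ ⟨N, rfl⟩; exact hB N.1 N.2⟩

theorem le_Nm {p : ℝ} (hp : 0 < p) {N : VT → ℝ} (h : Adm p N) (v : VT) : N v ≤ Nm p v :=
  le_ciSup (bddAbove hp v) (⟨N, h⟩ : {N : VT → ℝ // Adm p N})

theorem adm_Nm {p : ℝ} (hp : 0 < p) : Adm p (Nm p) where
  nonneg v := le_Nm hp (adm_zero p) v
  add_le v w := ciSup_le fun N => (N.2.add_le v w).trans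
    (add_le_add (le_Nm hp N.2 v) (le_Nm hp N.2 w))
  smul t v := by
    unfold Nm
    rw [Real.mul_iSup_of_nonneg (by positivity)]
    congr 1
    funext N
    exact N.2.smul t v
  del_le x y := ciSup_le fun N => (N.2.del_le x y).trans (le_Nm hp N.2 (x - y))
  e_le := ciSup_le fun N => N.2.e_le

theorem adm_β {p : ℝ} (hp : 0 < p) (hp1 : p ≤ 1) : Adm p (fun v => |βV v| ^ p) where
  nonneg v := by positivity
  add_le v w := by
    rw [map_add]
    refine (Real.rpow_le_rpow (abs_nonneg _) (abs_add_le _ _) hp.le).trans ?_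
    exact Real.rpow_add_le_add_rpow (abs_nonneg _) (abs_nonneg _) hp.le hp1
  smul t v := by
    rw [map_smul, smul_eq_mul, abs_mul, Real.mul_rpow (abs_nonneg _) (abs_nonneg _)]
  del_le x y := by
    rw [map_sub, βV_dl, βV_dl, map_sub]
  e_le := by
    rw [βV_ee, abs_one, Real.one_rpow]

/-- The seminormed space. -/
def E (_p : ℝ) : Type := VT

noncomputable instance (p : ℝ) : AddCommGroup (E p) := inferInstanceAs (AddCommGroup VT)

noncomputable instance (p : ℝ) : Module ℝ (E p) := inferInstanceAs (Module ℝ VT)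

/-- The seminorm as an additive group seminorm. -/
noncomputable def sn (p : ℝ) [hp : Fact (0 < p)] : AddGroupSeminorm (E p) where
  toFun := Nm p
  map_zero' := (adm_Nm hp.out).zero hp.out
  add_le' := (adm_Nm hp.out).add_le
  neg' v := by
    have h := (adm_Nm hp.out).smul (-1) (show VT from v)
    rw [neg_one_smul, abs_neg, abs_one, Real.one_rpow, one_mul] at h
    exact h

noncomputable instance (p : ℝ) [Fact (0 < p)] : SeminormedAddCommGroup (E p) :=
  AddGroupSeminorm.toSeminormedAddCommGroup (sn p)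

theorem norm_E (p : ℝ) [Fact (0 < p)] (v : E p) : ‖v‖ = Nm p v := rfl

theorem norm_smul_E (p : ℝ) [hp : Fact (0 < p)] (t : ℝ) (v : E p) : ‖t • v‖ = |t| ^ p * ‖v‖ :=
  (adm_Nm hp.out).smul t v

instance (p : ℝ) [Fact (0 < p)] : UniformContinuousConstSMul ℝ (E p) where
  uniformContinuous_const_smul t := by
    have h : LipschitzWith (Real.toNNReal (|t| ^ p)) (fun v : E p => t • v) := by
      apply LipschitzWith.of_dist_le_mul
      intro x y
      rw [dist_eq_norm, dist_eq_norm, ← smul_sub, norm_smul_E,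
        Real.coe_toNNReal _ (by positivity)]
    exact h.uniformContinuous

/-- The complete space. -/
abbrev X (p : ℝ) [Fact (0 < p)] : Type := UniformSpace.Completion (E p)

variable {p : ℝ} [hp : Fact (0 < p)]

theorem norm_smul_X (t : ℝ) (x : X p) : ‖t • x‖ = |t| ^ p * ‖x‖ := by
  induction x using UniformSpace.Completion.induction_on with
  | hp => exact isClosed_eq ((continuous_const_smul t).norm) (continuous_const.mul continuous_norm)
  | ih v =>
    rw [← UniformSpace.Completion.coe_smul, UniformSpace.Completion.norm_coe,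
      UniformSpace.Completion.norm_coe, norm_smul_E]

/-- The map `δ` on the seminormed space. -/
noncomputable def dE (v : E p) : E p := dl v

theorem lipschitz_dE : LipschitzWith 1 (dE (p := p)) := by
  apply LipschitzWith.of_dist_le_mul
  intro x y
  rw [dist_eq_norm, dist_eq_norm, NNReal.coe_one, one_mul]
  exact (adm_Nm hp.out).del_le x y

/-- The map `δ` on the completion. -/
noncomputable def dX : X p → X p := UniformSpace.Completion.map dE

theorem dX_coe (v : E p) : dX (v : X p) = (dE v : X p) :=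
  UniformSpace.Completion.map_coe lipschitz_dE.uniformContinuous v

theorem dX_zero : dX (0 : X p) = 0 := by
  have h := dX_coe (0 : E p)
  have h2 : dE (0 : E p) = 0 := dl_zero
  rw [h2] at h
  exact h

theorem lipschitz_dX : LipschitzWith 1 (dX (p := p)) := lipschitz_dE.completion_map

end Q97.FreeP
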